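import Pool.Agent.Lib_helper30.PF.Defs

/-! BLOCK A (surgery) of the P5-free longest path theorem -/

set_option autoImplicit false

namespace Pool.Agent.PF

variable {V : Type*}

theorem A_53_app {G : SimpleGraph V} {l m : List V} (hl : IsP G l) (hm : IsP G m)
    (hd : ∀ v ∈ l, v ∉ m) (h : ∀ x ∈ l.getLast?, ∀ y ∈ m.head?, G.Adj x y) : IsP G (l ++ m) := by
  refine ⟨List.isChain_append.2 ⟨hl.1, hm.1, h⟩, ?_⟩
  rw [List.nodup_append]
  refine ⟨hl.2, hm.2, ?_⟩
  intro a ha b hb hab
  exact hd a ha (hab ▸ hb)

theorem A_53_left {G : SimpleGraph V} {l m : List V} (h : IsP G (l ++ m)) : IsP G l :=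
  ⟨(List.isChain_append.1 h.1).1, (List.nodup_append.1 h.2).1⟩

theorem A_53_right {G : SimpleGraph V} {l m : List V} (h : IsP G (l ++ m)) : IsP G m :=
  ⟨(List.isChain_append.1 h.1).2.1, (List.nodup_append.1 h.2).2.1⟩

theorem A_53_disj {G : SimpleGraph V} {l m : List V} (h : IsP G (l ++ m)) : ∀ v ∈ l, v ∉ m :=
  fun v hv hm => (List.nodup_append.1 h.2).2.2 v hv v hm rfl

theorem A_53_rev {G : SimpleGraph V} {l : List V} (h : IsP G l) : IsP G l.reverse := by
  refine ⟨?_, List.nodup_reverse.2 h.2⟩
  rw [List.isChain_reverse]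
  exact h.1.imp fun a b hab => SimpleGraph.Adj.symm hab

theorem A_prefix {G : SimpleGraph V} {P A B m : List V} {x z : V} (hP : Lng G P) (h : P = A ++ x :: B)
    (hm : IsP G m) (hd : ∀ v ∈ m, v ∉ x :: B) (hz : m.getLast? = some z) (ha : G.Adj z x) :
    m.length ≤ A.length := by
  have h1 : IsP G (m ++ x :: B) := by
    refine A_53_app hm (A_53_right (h ▸ hP.1)) hd ?_
    intro u hu v hv
    rw [hz] at hu
    simp only [Option.mem_def, Option.some.injEq, List.head?_cons] at hu hv
    rw [← hu, ← hv]; exact ha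
  have h2 := hP.2 _ h1
  rw [h] at h2
  simp only [List.length_append] at h2
  omega

theorem A_suffix {G : SimpleGraph V} {P A B m : List V} {x z : V} (hP : Lng G P) (h : P = A ++ x :: B)
    (hm : IsP G m) (hd : ∀ v ∈ m, v ∉ A ++ [x]) (hz : m.head? = some z) (ha : G.Adj x z) :
    m.length ≤ B.length := by
  have e1 : A ++ x :: B = (A ++ [x]) ++ B := by simp
  have h0 : IsP G ((A ++ [x]) ++ B) := by rw [← e1, ← h]; exact hP.1
  have h1 : IsP G ((A ++ [x]) ++ m) := by
    refine A_53_app (A_53_left h0) hm (fun v hv hvm => hd v hvm hv) ?_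
    intro u hu v hv
    rw [hz] at hv
    simp only [Option.mem_def, Option.some.injEq, List.getLast?_append, List.getLast?_singleton,
      Option.some_or] at hu hv
    rw [← hu, ← hv]; exact ha
  have h2 := hP.2 _ h1
  rw [h, e1] at h2
  simp only [List.length_append] at h2
  omega

theorem A_insert {G : SimpleGraph V} {P m : List V} {x y z w : V} (hP : Lng G P) (h : Next P x y)
    (hm : IsP G m) (hd : ∀ v ∈ m, v ∉ P) (hz : m.head? = some z) (hw : m.getLast? = some w)
    (ha : G.Adj x z) (hb : G.Adj w y) : False := by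
  obtain ⟨A, B, hAB⟩ := h
  have e1 : A ++ x :: y :: B = (A ++ [x]) ++ y :: B := by simp
  have h0 : IsP G ((A ++ [x]) ++ y :: B) := by rw [← e1, ← hAB]; exact hP.1
  have hd' : ∀ v ∈ m, v ∉ (A ++ [x]) ++ y :: B := by rw [← e1, ← hAB]; exact hd
  have h1 : IsP G (m ++ y :: B) := by
    refine A_53_app hm (A_53_right h0) (fun v hv h' => hd' v hv (List.mem_append_right _ h')) ?_
    intro u hu v hv
    rw [hw] at hu
    simp only [Option.mem_def, Option.some.injEq, List.head?_cons] at hu hv
    rw [← hu, ← hv]; exact hb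
  have h2 : IsP G ((A ++ [x]) ++ (m ++ y :: B)) := by
    refine A_53_app (A_53_left h0) h1 ?_ ?_
    · intro v hv hv'
      rcases List.mem_append.1 hv' with h' | h'
      · exact hd' v h' (List.mem_append_left _ hv)
      · exact A_53_disj h0 v hv h'
    · intro u hu v hv
      rw [List.head?_append, hz] at hv
      simp only [Option.mem_def, Option.some.injEq, List.getLast?_append, List.getLast?_singleton,
        Option.some_or] at hu hv
      rw [← hu, ← hv]; exact ha
  have h3 := hP.2 _ h2
  rw [hAB, e1] at h3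
  simp only [List.length_append] at h3
  have h4 : m ≠ [] := by
    intro h'
    rw [h'] at hz
    simp at hz
  have h5 := List.length_pos_iff.2 h4
  omega

theorem A_fork {G : SimpleGraph V} {P m A M B : List V} {x x' y y' z w : V} (hP : Lng G P)
    (h : P = A ++ x :: x' :: (M ++ y :: y' :: B))
    (hm : IsP G m) (hd : ∀ v ∈ m, v ∉ P) (hz : m.head? = some z) (hw : m.getLast? = some w)
    (ha : G.Adj x z) (hb : G.Adj w y) : ¬ G.Adj x' y' := by
  intro hxy
  have e1 : A ++ x :: x' :: (M ++ y :: y' :: B) =
      (A ++ [x]) ++ ((x' :: (M ++ [y])) ++ (y' :: B)) := by simp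
  have h0 : IsP G ((A ++ [x]) ++ ((x' :: (M ++ [y])) ++ (y' :: B))) := by
    rw [← e1, ← h]; exact hP.1
  have hd' : ∀ v ∈ m, v ∉ (A ++ [x]) ++ ((x' :: (M ++ [y])) ++ (y' :: B)) := by
    rw [← e1, ← h]; exact hd
  have hR := A_53_right h0
  have hrev : IsP G (x' :: (M ++ [y])).reverse := A_53_rev (A_53_left hR)
  have erev : (x' :: (M ++ [y])).reverse = y :: (M.reverse ++ [x']) := by simp
  have h1 : IsP G ((x' :: (M ++ [y])).reverse ++ (y' :: B)) := by
    refine A_53_app hrev (A_53_right hR) ?_ ?_
    · intro v hv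
      exact A_53_disj hR v (List.mem_reverse.1 hv)
    · intro u hu v hv
      rw [List.getLast?_reverse] at hu
      simp only [Option.mem_def, Option.some.injEq, List.head?_cons] at hu hv
      rw [← hu, ← hv]; exact hxy
  have h2 : IsP G (m ++ ((x' :: (M ++ [y])).reverse ++ (y' :: B))) := by
    refine A_53_app hm h1 ?_ ?_
    · intro v hv hv'
      apply hd' v hv
      apply List.mem_append_right
      rcases List.mem_append.1 hv' with h' | h'
      · exact List.mem_append_left _ (List.mem_reverse.1 h')
      · exact List.mem_append_right _ h'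
    · intro u hu v hv
      rw [hw] at hu
      rw [erev, List.cons_append, List.head?_cons] at hv
      simp only [Option.mem_def, Option.some.injEq] at hu hv
      rw [← hu, ← hv]; exact hb
  have h3 : IsP G ((A ++ [x]) ++ (m ++ ((x' :: (M ++ [y])).reverse ++ (y' :: B)))) := by
    refine A_53_app (A_53_left h0) h2 ?_ ?_
    · intro v hv hv'
      rcases List.mem_append.1 hv' with h' | h'
      · exact hd' v h' (List.mem_append_left _ hv)
      · apply A_53_disj h0 v hv
        rcases List.mem_append.1 h' with h'' | h''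
        · exact List.mem_append_left _ (List.mem_reverse.1 h'')
        · exact List.mem_append_right _ h''
    · intro u hu v hv
      rw [List.head?_append, hz] at hv
      simp only [Option.mem_def, Option.some.injEq, List.getLast?_append, List.getLast?_singleton,
        Option.some_or] at hu hv
      rw [← hu, ← hv]; exact ha
  have h4 := hP.2 _ h3
  rw [h, e1] at h4
  simp only [List.length_append, List.length_reverse] at h4
  have h5 : m ≠ [] := by
    intro h'
    rw [h'] at hz
    simp at hz
  have h6 := List.length_pos_iff.2 h5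
  omega

theorem A_rev {G : SimpleGraph V} {P : List V} (hP : Lng G P) : Lng G P.reverse :=
  ⟨A_53_rev hP.1, fun m hm => by rw [List.length_reverse]; exact hP.2 m hm⟩

theorem A_53_next {P : List V} {x y : V} (h : Next P x y) :
    ∃ (i : ℕ) (h0 : i < P.length) (h1 : i + 1 < P.length), P[i] = x ∧ P[i + 1] = y := by
  obtain ⟨A, B, rfl⟩ := h
  refine ⟨A.length, by simp, by simp, ?_, ?_⟩
  · simp
  · rw [List.getElem_append_right (by omega)]
    simp

theorem A_next_inj {P : List V} (hn : P.Nodup) {x y z : V} (h1 : Next P x z) (h2 : Next P y z) :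
    x = y := by
  obtain ⟨i, hi, hi', a1, a2⟩ := A_53_next h1
  obtain ⟨j, hj, hj', b1, b2⟩ := A_53_next h2
  have h3 : i + 1 = j + 1 := (hn.getElem_inj_iff (hi := hi') (hj := hj')).1 (a2.trans b2.symm)
  have h4 : i = j := by omega
  subst h4
  rw [← a1, ← b1]

theorem A_next_fun {P : List V} (hn : P.Nodup) {x y z : V} (h1 : Next P x y) (h2 : Next P x z) :
    y = z := by
  obtain ⟨i, hi, hi', a1, a2⟩ := A_53_next h1
  obtain ⟨j, hj, hj', b1, b2⟩ := A_53_next h2
  have h4 : i = j := (hn.getElem_inj_iff (hi := hi) (hj := hj)).1 (a1.trans b1.symm)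
  subst h4
  rw [← a2, ← b2]

end Pool.Agent.PF
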