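import Pool.Agent.Lib_helper30.PF.Defs

/-! BLOCK C (components) of the P5-free longest path theorem -/

set_option autoImplicit false

namespace Pool.Agent.PF

variable {V : Type*}

/-- adjacency inside a set -/
def C_41_R (G : SimpleGraph V) (K : Set V) (u v : V) : Prop := G.Adj u v ∧ u ∈ K ∧ v ∈ K

theorem C_41_ext {G : SimpleGraph V} {K : Set V} {l : List V} {a b c : V} (hl : IsP G l)
    (hK : ∀ z ∈ l, z ∈ K) (h1 : l.head? = some a) (h2 : l.getLast? = some b) (h : G.Adj b c)
    (hc : c ∈ K) :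
    ∃ m : List V, IsP G m ∧ (∀ z ∈ m, z ∈ K) ∧ m.head? = some a ∧ m.getLast? = some c := by
  by_cases hcl : c ∈ l
  · obtain ⟨A, B, rfl⟩ := List.append_of_mem hcl
    refine ⟨A ++ [c], ⟨?_, ?_⟩, ?_, ?_, by simp⟩
    · have := hl.1
      rw [List.append_cons] at this
      exact this.left_of_append
    · have := hl.2
      rw [List.append_cons] at this
      exact this.of_append_left
    · intro z hz
      refine hK z ?_
      rw [List.append_cons]
      exact List.mem_append_left _ hz
    · rw [List.head?_append] at h1 ⊢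
      simpa using h1
  · refine ⟨l ++ [c], ⟨?_, ?_⟩, ?_, ?_, by simp⟩
    · refine List.isChain_append.2 ⟨hl.1, List.isChain_singleton _, ?_⟩
      intro x hx y hy
      rw [h2] at hx
      simp only [Option.mem_def, Option.some.injEq, List.head?_cons] at hx hy
      subst hx hy
      exact h
    · refine List.nodup_append.2 ⟨hl.2, List.nodup_singleton _, ?_⟩
      intro x hx y hy he
      rw [List.mem_singleton] at hy
      subst he hy
      exact hcl hx
    · intro z hz
      rcases List.mem_append.1 hz with hz | hz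
      · exact hK z hz
      · rw [List.mem_singleton.1 hz]
        exact hc
    · rw [List.head?_append, h1]
      rfl

theorem C_41_list {G : SimpleGraph V} {K : Set V} {a b : V} (ha : a ∈ K)
    (h : Relation.ReflTransGen (C_41_R G K) a b) :
    ∃ m : List V, IsP G m ∧ (∀ z ∈ m, z ∈ K) ∧ m.head? = some a ∧ m.getLast? = some b := by
  induction h with
  | refl => exact ⟨[a], ⟨List.isChain_singleton _, List.nodup_singleton _⟩, by simpa using ha,
      rfl, rfl⟩
  | tail _ h ih =>
    obtain ⟨m, h1, h2, h3, h4⟩ := ih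
    exact C_41_ext h1 h2 h3 h4 h.1 h.2.2

theorem C_41_rel {G : SimpleGraph V} {K : Set V} : ∀ (l : List V) (a b : V), l.IsChain G.Adj →
    (∀ z ∈ l, z ∈ K) → l.head? = some a → l.getLast? = some b →
    Relation.ReflTransGen (C_41_R G K) a b
  | [], a, b, _, _, h, _ => by simp at h
  | [x], a, b, _, _, h1, h2 => by
    simp only [List.head?_cons, Option.some.injEq, List.getLast?_singleton] at h1 h2
    rw [← h1, ← h2]
  | x :: y :: l, a, b, hc, hK, h1, h2 => by
    simp only [List.head?_cons, Option.some.injEq] at h1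
    subst h1
    have hc' := List.isChain_cons_cons.1 hc
    refine Relation.ReflTransGen.head (b := y) ⟨hc'.1, hK _ (by simp), hK _ (by simp)⟩
      (C_41_rel (y :: l) y b hc'.2 (fun z hz => hK z (List.mem_cons_of_mem _ hz)) rfl ?_)
    rw [List.getLast?_cons_cons] at h2
    exact h2

theorem C_41_conn {G : SimpleGraph V} {K : Set V} : Conn G K ↔
    K.Nonempty ∧ ∀ a ∈ K, ∀ b ∈ K, Relation.ReflTransGen (C_41_R G K) a b := by
  refine and_congr_right fun _ => forall₂_congr fun a ha => forall₂_congr fun b _ => ?_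
  constructor
  · rintro ⟨l, h1, h2, h3, h4⟩
    exact C_41_rel l a b h1.1 h2 h3 h4
  · exact C_41_list ha

theorem C_41_symm {G : SimpleGraph V} {K : Set V} {a b : V}
    (h : Relation.ReflTransGen (C_41_R G K) a b) : Relation.ReflTransGen (C_41_R G K) b a := by
  induction h with
  | refl => exact Relation.ReflTransGen.refl
  | tail _ h ih => exact Relation.ReflTransGen.head ⟨h.1.symm, h.2.2, h.2.1⟩ ih

theorem C_cross {G : SimpleGraph V} {K S : Set V} (hK : Conn G K) {a b : V} (ha : a ∈ K) (haS : a ∈ S)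
    (hb : b ∈ K) (hbS : b ∉ S) : ∃ u v : V, u ∈ K ∧ u ∈ S ∧ v ∈ K ∧ v ∉ S ∧ G.Adj u v := by
  by_contra hcon
  have h := (C_41_conn.1 hK).2 a ha b hb
  have : ∀ c, Relation.ReflTransGen (C_41_R G K) a c → c ∈ S := by
    intro c hc
    induction hc with
    | refl => exact haS
    | tail _ h ih =>
      by_contra hn
      exact hcon ⟨_, _, h.2.1, ih, h.2.2, hn, h.1⟩
  exact hbS (this b h)

theorem C_exists {G : SimpleGraph V} {S : Set V} {a : V} (ha : a ∈ S) :
    ∃ K : Set V, Comp G S K ∧ a ∈ K := by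
  have hS : ∀ b, Relation.ReflTransGen (C_41_R G S) a b → b ∈ S := by
    intro b hb
    cases hb with
    | refl => exact ha
    | tail _ h => exact h.2.2
  refine ⟨{b | Relation.ReflTransGen (C_41_R G S) a b}, ⟨C_41_conn.2 ⟨⟨a, .refl⟩, ?_⟩,
    fun b hb => hS b hb, fun u hu v hv h => hu.tail ⟨h, hS u hu, hv⟩⟩, .refl⟩
  have key : ∀ b, Relation.ReflTransGen (C_41_R G S) a b →
      Relation.ReflTransGen (C_41_R G {b | Relation.ReflTransGen (C_41_R G S) a b}) a b := by
    intro b hb
    induction hb with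
    | refl => exact .refl
    | tail h1 h ih => exact ih.tail ⟨h.1, h1, h1.tail h⟩
  exact fun b hb c hc => (C_41_symm (key b hb)).trans (key c hc)

/-- a connected subset of S which meets the component K lies in K -/
theorem C_sub {G : SimpleGraph V} {S K L : Set V} (hK : Comp G S K) (hL : Conn G L) (hLS : L ⊆ S) {u : V}
    (h1 : u ∈ K) (h2 : u ∈ L) : L ⊆ K := by
  intro b hb
  have h := (C_41_conn.1 hL).2 u h2 b hb
  induction h with
  | refl => exact h1
  | tail _ h ih => exact hK.2.2 _ (ih h.2.1) _ (hLS h.2.2) h.1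

theorem C_unique {G : SimpleGraph V} {S K L : Set V} (hK : Comp G S K) (hL : Comp G S L) {u : V}
    (h1 : u ∈ K) (h2 : u ∈ L) : K = L :=
  Set.Subset.antisymm (C_sub hL hK.1 hK.2.1 h2 h1) (C_sub hK hL.1 hL.2.1 h1 h2)

/-- a path inside S lies in one component -/
theorem C_path {G : SimpleGraph V} {S : Set V} {l : List V} (hl : IsP G l) (hS : ∀ z ∈ l, z ∈ S)
    (hne : l ≠ []) : ∃ K : Set V, Comp G S K ∧ ∀ z ∈ l, z ∈ K := by
  obtain ⟨a, l', rfl⟩ := List.exists_cons_of_ne_nil hne
  obtain ⟨K, hK, haK⟩ := C_exists (G := G) (hS a (by simp))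
  refine ⟨K, hK, ?_⟩
  have key : ∀ (m : List V) (x : V), x ∈ K → (x :: m).IsChain G.Adj → (∀ z ∈ x :: m, z ∈ S) →
      ∀ z ∈ x :: m, z ∈ K := by
    intro m
    induction m with
    | nil =>
      intro x hx _ _ z hz
      rw [List.mem_singleton.1 hz]
      exact hx
    | cons y m ih =>
      intro x hx hc hS z hz
      have hc' := List.isChain_cons_cons.1 hc
      rcases List.mem_cons.1 hz with rfl | hz
      · exact hx
      · exact ih y (hK.2.2 x hx y (hS y (by simp)) hc'.1) hc'.2
          (fun w hw => hS w (List.mem_cons_of_mem _ hw)) z hz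
  exact key l' a haK hl.1 hS

theorem C_nb {G : SimpleGraph V} {S K : Set V} (hG : Conn G Set.univ) (hK : Comp G S K)
    (hS : ∃ v, v ∉ S) : (Nb G K).Nonempty ∧ ∀ x ∈ Nb G K, x ∉ S := by
  constructor
  · obtain ⟨k, hk⟩ := hK.1.1
    obtain ⟨v, hv⟩ := hS
    obtain ⟨u, w, -, hu, -, hw, h⟩ := C_cross (S := K) hG (Set.mem_univ k) hk (Set.mem_univ v)
      (fun h => hv (hK.2.1 h))
    exact ⟨w, hw, u, hu, h.symm⟩
  · rintro x ⟨hx, u, hu, h⟩ hxS
    exact hx (hK.2.2 u hu x hxS h.symm)

/-- adding to a connected set a vertex with a neighbour in it -/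
theorem C_insert {G : SimpleGraph V} {K : Set V} (hK : Conn G K) {x u : V} (hu : u ∈ K)
    (h : G.Adj x u) : Conn G (insert x K) := by
  have hK' := C_41_conn.1 hK
  have mono : ∀ a b, Relation.ReflTransGen (C_41_R G K) a b →
      Relation.ReflTransGen (C_41_R G (insert x K)) a b := by
    intro a b hab
    induction hab with
    | refl => exact .refl
    | tail _ h ih =>
      exact ih.tail ⟨h.1, Set.mem_insert_of_mem _ h.2.1, Set.mem_insert_of_mem _ h.2.2⟩
  have key : ∀ b ∈ insert x K, Relation.ReflTransGen (C_41_R G (insert x K)) u b := by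
    intro b hb
    rcases Set.mem_insert_iff.1 hb with rfl | hb
    · exact .single ⟨h.symm, Set.mem_insert_of_mem _ hu, Set.mem_insert _ _⟩
    · exact mono _ _ (hK'.2 u hu b hb)
  exact C_41_conn.2 ⟨⟨x, Set.mem_insert _ _⟩, fun a ha b hb =>
    (C_41_symm (key a ha)).trans (key b hb)⟩

end Pool.Agent.PF
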