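import Pool.Agent.Lib_helper30.PF.W.A
import Pool.Agent.Lib_helper30.PF.W.C

/-! BLOCK B (facts on X = N(C) of the P5-free longest path theorem -/

set_option autoImplicit false

namespace Pool.Agent.PF

variable {V : Type*}

theorem B_sub {G : SimpleGraph V} {P : List V} {C : Set V} (hC : Comp G (Off P) C) :
    ∀ x ∈ Nb G C, x ∈ P := by
  intro x hx
  by_contra h
  obtain ⟨hxC, u, hu, hxu⟩ := hx
  exact hxC (hC.2.2 u hu x h hxu.symm)

/-- a path inside C between neighbours of two elements of N(C) -/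
theorem B_37_path {G : SimpleGraph V} {P : List V} {C : Set V} (hC : Comp G (Off P) C)
    {x y : V} (hx : x ∈ Nb G C) (hy : y ∈ Nb G C) :
    ∃ (m : List V) (z w : V), IsP G m ∧ (∀ v ∈ m, v ∉ P) ∧ m.head? = some z ∧
      m.getLast? = some w ∧ G.Adj x z ∧ G.Adj w y := by
  obtain ⟨-, u, hu, hxu⟩ := hx
  obtain ⟨-, v, hv, hyv⟩ := hy
  obtain ⟨l, hl, hlC, hh, ht⟩ := hC.1.2 u hu v hv
  exact ⟨l, u, v, hl, fun z hz => hC.2.1 (hlC z hz), hh, ht, hxu, hyv.symm⟩

theorem B_37_single {G : SimpleGraph V} (u : V) : IsP G [u] :=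
  ⟨List.isChain_singleton u, List.nodup_singleton u⟩

theorem B_37_next {G : SimpleGraph V} {P : List V} {C : Set V} (hP : Lng G P)
    (hC : Comp G (Off P) C) {x y : V} (hx : x ∈ Nb G C) (hy : y ∈ Nb G C) : ¬ Next P x y := by
  intro h
  obtain ⟨m, z, w, hm, hd, hz, hw, ha, hb⟩ := B_37_path hC hx hy
  exact A_insert hP h hm hd hz hw ha hb

theorem B_inner {G : SimpleGraph V} {P : List V} {C : Set V} (hP : Lng G P) (hC : Comp G (Off P) C)
    {x : V} (hx : x ∈ Nb G C) :
    ∃ (A B : List V) (a b : V), P = A ++ a :: x :: b :: B ∧ a ∉ Nb G C ∧ b ∉ Nb G C := by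
  have hxP : x ∈ P := B_sub hC x hx
  obtain ⟨A, B, hAB⟩ := List.append_of_mem hxP
  obtain ⟨-, u, hu, hxu⟩ := id hx
  have huP : u ∉ P := hC.2.1 hu
  have h1 : 1 ≤ A.length := by
    refine A_prefix (m := [u]) (z := u) hP hAB (B_37_single u) ?_ rfl hxu.symm
    intro v hv hv'
    rw [List.mem_singleton] at hv
    subst hv
    exact huP (by rw [hAB]; exact List.mem_append_right A hv')
  have h2 : 1 ≤ B.length := by
    refine A_suffix (m := [u]) (z := u) hP hAB (B_37_single u) ?_ rfl hxu
    intro v hv hv'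
    rw [List.mem_singleton] at hv
    subst hv
    refine huP ?_
    rw [hAB]
    rcases List.mem_append.1 hv' with h | h
    · exact List.mem_append_left _ h
    · rw [List.mem_singleton] at h
      subst h
      exact List.mem_append_right A List.mem_cons_self
  rcases List.eq_nil_or_concat A with rfl | ⟨A', a, rfl⟩
  · exact absurd h1 (by simp)
  · rcases B with _ | ⟨b, B'⟩
    · exact absurd h2 (by simp)
    · have hAB' : P = A' ++ a :: x :: b :: B' := by
        rw [hAB, List.concat_eq_append, List.append_assoc]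
        rfl
      refine ⟨A', B', a, b, hAB', ?_, ?_⟩
      · intro ha
        exact B_37_next hP hC ha hx ⟨A', b :: B', hAB'⟩
      · intro hb
        exact B_37_next hP hC hx hb ⟨A' ++ [a], B', by rw [hAB']; simp⟩

/-- uniqueness of the splitting of a list without repetitions -/
theorem B_37_split {A B A' B' : List V} {x : V} (hn : (A ++ x :: B).Nodup)
    (h : A ++ x :: B = A' ++ x :: B') : B = B' := by
  induction A generalizing A' with
  | nil =>
    cases A' with
    | nil => simpa using h
    | cons a A' =>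
      simp only [List.nil_append, List.cons_append, List.cons.injEq] at h
      obtain ⟨rfl, hB⟩ := h
      simp only [List.nil_append, List.nodup_cons] at hn
      exact absurd (by rw [hB]; simp) hn.1
  | cons a A ih =>
    cases A' with
    | nil =>
      simp only [List.nil_append, List.cons_append, List.cons.injEq] at h
      obtain ⟨rfl, hB⟩ := h
      simp only [List.cons_append, List.nodup_cons] at hn
      exact absurd (by simp) hn.1
    | cons a' A' =>
      simp only [List.cons_append, List.cons.injEq] at h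
      exact ih (List.nodup_cons.1 hn).2 h.2

theorem B_indep {G : SimpleGraph V} {P : List V} {C : Set V} (hP : Lng G P) (hC : Comp G (Off P) C)
    {x y x' y' : V} (hx : x ∈ Nb G C) (hy : y ∈ Nb G C) (hne : x ≠ y)
    (h1 : Next P x x') (h2 : Next P y y') : ¬ G.Adj x' y' := by
  have hnd : P.Nodup := hP.1.2
  have key : ∀ {p q p' q' : V}, p ∈ Nb G C → q ∈ Nb G C → Next P q q' →
      ∀ {A B : List V}, P = A ++ p :: p' :: B → q ∈ B → ¬ G.Adj p' q' := by
    intro p q p' q' hp hq hq2 A B hA hB
    obtain ⟨M, B', hM⟩ := List.append_of_mem hB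
    obtain ⟨A2, B2, hA2⟩ := hq2
    have e1 : P = (A ++ p :: p' :: M) ++ q :: B' := by rw [hA, hM]; simp
    have e2 : B' = q' :: B2 := by
      refine B_37_split (A := A ++ p :: p' :: M) (A' := A2) (x := q) ?_ ?_
      · rw [← e1]; exact hnd
      · rw [← e1]; exact hA2
    obtain ⟨m, z, w, hm, hd, hz, hw, ha, hb⟩ := B_37_path hC hp hq
    refine A_fork (A := A) (M := M) (B := B2) hP ?_ hm hd hz hw ha hb
    rw [e1, e2]; simp
  have hx' : x' ≠ y := by
    rintro rfl
    exact B_37_next hP hC hx hy h1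
  have hyP : y ∈ P := B_sub hC y hy
  obtain ⟨A, B, hA⟩ := id h1
  have hyP' := hyP
  rw [hA] at hyP'
  rcases List.mem_append.1 hyP' with hyA | hyB
  · -- `y` comes first
    obtain ⟨A1, A2, hA12⟩ := List.append_of_mem hyA
    have e1 : P = A1 ++ y :: (A2 ++ x :: x' :: B) := by rw [hA, hA12]; simp
    rcases A2 with _ | ⟨a, A2⟩
    · exact absurd ⟨A1, x' :: B, by rw [e1]; rfl⟩ (B_37_next hP hC hy hx)
    · have hya : Next P y a := ⟨A1, A2 ++ x :: x' :: B, by rw [e1]; rfl⟩
      have ea : a = y' := A_next_fun hnd hya h2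
      subst ea
      intro hadj
      refine key (p := y) (q := x) (p' := a) (q' := x') hy hx h1
        (A := A1) (B := A2 ++ x :: x' :: B) (by rw [e1]; rfl) ?_ hadj.symm
      simp
  · have hyB' : y ∈ B := by
      rcases List.mem_cons.1 hyB with h | h
      · exact absurd h.symm hne
      · rcases List.mem_cons.1 h with h | h
        · exact absurd h.symm hx'
        · exact h
    exact key hx hy h2 hA hyB'

theorem B_anti {G : SimpleGraph V} {P : List V} {C : Set V} (hC : Comp G (Off P) C)
    {c v : V} (hc : c ∈ C) (hv : v ∈ P) (hn : v ∉ Nb G C) : ¬ G.Adj c v ∧ ¬ G.Adj v c := by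
  have hvC : v ∉ C := fun h => hC.2.1 h hv
  have h : ¬ G.Adj v c := fun h => hn ⟨hvC, c, hc, h⟩
  exact ⟨fun h' => h h'.symm, h⟩

theorem B_comp {G : SimpleGraph V} {P : List V} {C : Set V} (hC : Comp G (Off P) C) :
    Comp G (Nb G C)ᶜ C := by
  refine ⟨hC.1, fun x hx hx' => hx'.1 hx, ?_⟩
  intro u hu v hv huv
  by_contra h
  exact hv ⟨h, u, hu, huv.symm⟩

end Pool.Agent.PF
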