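import Pool.Agent.Lib_helper30.PF.W.C

/-! BLOCK D (induced P5) of the P5-free longest path theorem -/

set_option autoImplicit false

namespace Pool.Agent.PF

variable {V : Type*}

/-- two different components of the same set are anticomplete -/
theorem D31_anti {G : SimpleGraph V} {S K L : Set V} (hK : Comp G S K) (hL : Comp G S L)
    (hne : K ≠ L) {u v : V} (hu : u ∈ K) (hv : v ∈ L) : ¬ G.Adj u v := fun h =>
  hne (C_unique hK hL (hK.2.2 u hu v (hL.2.1 hv) h) hv)

/-- F1 -/
theorem D_mixed {G : SimpleGraph V} (h5 : NoP5 G) {S K L : Set V} (hK : Comp G S K) (hL : Comp G S L)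
    (hne : K ≠ L) {x : V} (hx : x ∉ S) (hu : Tch G x K) (hv : ∃ v ∈ K, ¬ G.Adj x v) (ht : Tch G x L) :
    ∀ v ∈ L, G.Adj x v := by
  intro v hvL
  by_contra hxv
  obtain ⟨a, haK, hxa⟩ := hu
  obtain ⟨b, hbK, hxb⟩ := hv
  obtain ⟨c, hcL, hxc⟩ := ht
  obtain ⟨u1, v1, hu1, hu1x, hv1, hv1x, h1⟩ :=
    C_cross (S := {z | G.Adj x z}) hK.1 haK hxa hbK hxb
  obtain ⟨u2, v2, hu2, hu2x, hv2, hv2x, h2⟩ :=
    C_cross (S := {z | G.Adj x z}) hL.1 hcL hxc hvL hxv
  exact h5 v1 u1 x u2 v2 h1.symm (G.adj_symm hu1x) hu2x h2 (fun h => hv1x (G.adj_symm h))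
    (D31_anti hK hL hne hv1 hu2) (D31_anti hK hL hne hv1 hv2) (D31_anti hK hL hne hu1 hu2)
    (D31_anti hK hL hne hu1 hv2) hv2x

/-- shortening argument for F2 -/
theorem D31_short {G : SimpleGraph V} (h5 : NoP5 G) {C : Set V} {x y u v : V} (hxy : ¬ G.Adj x y)
    (hux : G.Adj u x) (hyv : G.Adj y v) (huC : ∀ z ∈ C, ¬ G.Adj u z) (hvC : ∀ z ∈ C, ¬ G.Adj z v)
    (huy : ¬ G.Adj u y) (huv : ¬ G.Adj u v) (hxv : ¬ G.Adj x v) :
    ∀ (n : ℕ) (l : List V), l.length = n → l.IsChain G.Adj → (∀ z ∈ l, z ∈ C) →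
      (∀ a, l.head? = some a → G.Adj x a) → (∀ b, l.getLast? = some b → G.Adj b y) → l ≠ [] →
      False := by
  intro n
  induction n using Nat.strong_induction_on with
  | _ n ih =>
    intro l hn hc hC ha hb hne
    match l, hn, hc, hC, ha, hb, hne with
    | [], _, _, _, _, _, hne => exact hne rfl
    | [a], _, _, hC, ha, hb, _ =>
      have haC : a ∈ C := hC a (by simp)
      exact h5 u x a y v hux (ha a rfl) (hb a rfl) hyv (huC a haC) huy huv hxy hxv (hvC a haC)
    | [a, b], hn, hc, hC, ha, hb, _ =>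
      have haC : a ∈ C := hC a (by simp)
      have hbC : b ∈ C := hC b (by simp)
      have hab : G.Adj a b := by simpa using hc
      have hxa : G.Adj x a := ha a rfl
      have hby : G.Adj b y := hb b rfl
      have hn2 : n = 2 := by simpa using hn.symm
      by_cases h1 : G.Adj x b
      · exact ih 1 (by omega) [b] rfl (by simp) (by simpa using hbC)
          (by intro z hz; simp at hz; subst hz; exact h1)
          (by intro z hz; simp at hz; subst hz; exact hby) (by simp)
      by_cases h2 : G.Adj a y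
      · exact ih 1 (by omega) [a] rfl (by simp) (by simpa using haC)
          (by intro z hz; simp at hz; subst hz; exact hxa)
          (by intro z hz; simp at hz; subst hz; exact h2) (by simp)
      exact h5 u x a b y hux hxa hab hby (huC a haC) (huC b hbC) huy h1 hxy h2
    | a :: b :: c :: t, hn, hc, hC, ha, hb, _ =>
      have haC : a ∈ C := hC a (by simp)
      have hbC : b ∈ C := hC b (by simp)
      have hcC : c ∈ C := hC c (by simp)
      have hc1 := List.isChain_cons_cons.1 hc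
      have hc2 := List.isChain_cons_cons.1 hc1.2
      have hab : G.Adj a b := hc1.1
      have hbc : G.Adj b c := hc2.1
      have hxa : G.Adj x a := ha a rfl
      have hn3 : n = t.length + 3 := by simpa using hn.symm
      have hlast : ∀ z, (c :: t).getLast? = some z → G.Adj z y := by
        intro z hz
        apply hb z
        rw [List.getLast?_cons_cons, List.getLast?_cons_cons]
        exact hz
      by_cases h1 : G.Adj x b
      · exact ih (t.length + 2) (by omega) (b :: c :: t) (by simp) hc1.2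
          (fun z hz => hC z (List.mem_cons_of_mem a hz))
          (by intro z hz; simp at hz; subst hz; exact h1)
          (by intro z hz; rw [List.getLast?_cons_cons] at hz; exact hlast z hz) (by simp)
      by_cases h2 : G.Adj x c
      · exact ih (t.length + 1) (by omega) (c :: t) (by simp) hc2.2
          (fun z hz => hC z (List.mem_cons_of_mem a (List.mem_cons_of_mem b hz)))
          (by intro z hz; simp at hz; subst hz; exact h2) hlast (by simp)
      by_cases h3 : G.Adj a c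
      · refine ih (t.length + 2) (by omega) (a :: c :: t) (by simp)
          (List.isChain_cons_cons.2 ⟨h3, hc2.2⟩) ?_ ?_ ?_ (by simp)
        · intro z hz
          rcases List.mem_cons.1 hz with rfl | hz
          · exact haC
          · exact hC z (List.mem_cons_of_mem a (List.mem_cons_of_mem b hz))
        · intro z hz; simp at hz; subst hz; exact hxa
        · intro z hz; rw [List.getLast?_cons_cons] at hz; exact hlast z hz
      exact h5 u x a b c hux hxa hab hbc (huC a haC) (huC b hbC) (huC c hcC) h1 h2 h3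

/-- F2 -/
theorem D_nested {G : SimpleGraph V} (h5 : NoP5 G) {S C E F : Set V} (hC : Comp G S C) (hE : Comp G S E)
    (hF : Comp G S F) {x y : V} (hx : x ∉ S) (hy : y ∉ S) (hxy : ¬ G.Adj x y) (hxC : Tch G x C)
    (hyC : Tch G y C) (hxE : Tch G x E) (hyE : ¬ Tch G y E) (hyF : Tch G y F) (hxF : ¬ Tch G x F) :
    False := by
  obtain ⟨a, haC, hxa⟩ := hxC
  obtain ⟨b, hbC, hyb⟩ := hyC
  obtain ⟨u, huE, hxu⟩ := hxE
  obtain ⟨v, hvF, hyv⟩ := hyF
  have hEC : E ≠ C := fun h => hyE (h ▸ ⟨b, hbC, hyb⟩)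
  have hCF : C ≠ F := fun h => hxF (h ▸ ⟨a, haC, hxa⟩)
  have hEF : E ≠ F := fun h => hxF (h ▸ ⟨u, huE, hxu⟩)
  obtain ⟨l, hl, hlC, hl1, hl2⟩ := hC.1.2 a haC b hbC
  refine D31_short h5 hxy hxu.symm hyv (fun z hz => D31_anti hE hC hEC huE hz)
    (fun z hz => D31_anti hC hF hCF hz hvF) (fun h => hyE ⟨u, huE, h.symm⟩)
    (D31_anti hE hF hEF huE hvF) (fun h => hxF ⟨v, hvF, h⟩) l.length l rfl hl.1 hlC ?_ ?_ ?_
  · intro z hz; rw [hl1] at hz; injection hz with hz; exact hz ▸ hxa
  · intro z hz; rw [hl2] at hz; injection hz with hz; exact hz ▸ hyb.symm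
  · rintro rfl; simp at hl1

/-- F3 -/
theorem D_pure {G : SimpleGraph V} (h5 : NoP5 G) {C : Set V} (hC : Conn G C) {g w a0 : V} (hg : g ∉ C)
    (ha0 : a0 ∈ C) (hga : G.Adj g a0) (hgw : G.Adj g w) (hw : ∀ c ∈ C, ¬ G.Adj c w) {b : List V}
    (hb : IsP G b) (hne : b ≠ []) (hbC : ∀ z ∈ b, z ∈ C ∧ ¬ G.Adj g z) :
    ∃ a ∈ C, G.Adj g a ∧ ∀ z ∈ b, G.Adj a z := by
  obtain ⟨K, hK, hbK⟩ := C_path (S := {z | z ∈ C ∧ ¬ G.Adj g z}) hb hbC hne
  obtain ⟨z0, hz0⟩ := List.exists_mem_of_ne_nil b hne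
  have ha0K : a0 ∉ K := fun h => (hK.2.1 h).2 hga
  obtain ⟨u, a, huC, huK, haC, haK, hua⟩ := C_cross (S := K) hC (hbC z0 hz0).1 (hbK z0 hz0) ha0 ha0K
  have hga' : G.Adj g a := by
    by_contra h
    exact haK (hK.2.2 u huK a ⟨haC, h⟩ hua)
  refine ⟨a, haC, hga', fun z hz => ?_⟩
  by_contra haz
  obtain ⟨u', v', hu', hu'a, hv', hv'a, huv⟩ :=
    C_cross (S := {z | G.Adj a z}) hK.1 huK hua.symm (hbK z hz) haz
  have hu2 := hK.2.1 hu'
  have hv2 := hK.2.1 hv'
  exact h5 v' u' a g w huv.symm (G.adj_symm hu'a) hga'.symm hgw (fun h => hv'a (G.adj_symm h))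
    (fun h => hv2.2 h.symm) (hw v' hv2.1) (fun h => hu2.2 h.symm) (hw u' hu2.1) (hw a haC)

end Pool.Agent.PF
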