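import Pool.Agent.Lib_helper30.PF.Defs

/-! BLOCK E (Lemma L) of the P5-free longest path theorem -/

set_option autoImplicit false

namespace Pool.Agent.PF

variable {V : Type*}

theorem E_first59 (T : V → Prop) : ∀ l : List V, (∃ x ∈ l, T x) →
    ∃ (p : List V) (z : V) (q : List V), l = p ++ z :: q ∧ T z ∧ ∀ x ∈ p, ¬ T x := by
  classical
  intro l
  induction l with
  | nil => rintro ⟨x, hx, _⟩; simp at hx
  | cons a l ih =>
    rintro ⟨x, hx, hT⟩
    by_cases ha : T a
    · exact ⟨[], a, l, rfl, ha, by simp⟩
    · rcases List.mem_cons.1 hx with rfl | hx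
      · exact absurd hT ha
      · obtain ⟨p, z, q, rfl, hz, hp⟩ := ih ⟨x, hx, hT⟩
        refine ⟨a :: p, z, q, rfl, hz, ?_⟩
        intro y hy
        rcases List.mem_cons.1 hy with rfl | hy
        · exact ha
        · exact hp y hy

theorem E_long {G : SimpleGraph V} {K : Set V} (hK : Conn G K) {h c : V} (hh : h ∈ K) {s : List V}
    (hs : IsP G s) (hsK : ∀ z ∈ s, z ∈ K ∧ G.Adj h z) (hc : c ∈ K) :
    ∃ l : List V, IsP G l ∧ (∀ z ∈ l, z ∈ K) ∧ l.head? = some c ∧ s.length + 1 ≤ l.length := by
  classical
  obtain ⟨l0, ⟨hch, hnd⟩, hlK, hhead, hlast⟩ := hK.2 c hc h hh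
  have hhl : h ∈ l0 := List.mem_of_getLast? hlast
  have hhs : h ∉ s := fun hm => G.irrefl (hsK h hm).2
  obtain ⟨p, z, q, hl0, hz, hp⟩ := E_first59 (fun x => x = h ∨ x ∈ s) l0 ⟨h, hhl, Or.inl rfl⟩
  have hsym : ∀ l : List V, l.IsChain G.Adj → l.reverse.IsChain G.Adj := by
    intro l hl
    rw [List.isChain_reverse]
    exact hl.imp fun a b hab => hab.symm
  rw [hl0] at hch hnd hlK hhead
  have hpz : (p ++ [z]).IsChain G.Adj := by
    rw [List.isChain_split] at hch
    exact hch.1
  have hpn : p.Nodup := hnd.of_append_left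
  have hpK : ∀ x ∈ p, x ∈ K := fun x hx => hlK x (by simp [hx])
  have hph : h ∉ p := fun hm => hp h hm (Or.inl rfl)
  have hps : ∀ x ∈ p, x ∉ s := fun x hx hm => hp x hx (Or.inr hm)
  rcases hz with rfl | hz
  · -- `z = h`
    refine ⟨p ++ z :: s, ⟨?_, ?_⟩, ?_, ?_, ?_⟩
    · rw [List.isChain_split]
      refine ⟨hpz, ?_⟩
      rw [List.isChain_cons]
      exact ⟨fun y hy => (hsK y (List.mem_of_head? hy)).2, hs.1⟩
    · rw [List.nodup_append]
      refine ⟨hpn, List.nodup_cons.2 ⟨hhs, hs.2⟩, ?_⟩
      intro a ha b hb hab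
      subst hab
      rcases List.mem_cons.1 hb with rfl | hb
      · exact hph ha
      · exact hps a ha hb
    · intro x hx
      rcases List.mem_append.1 hx with hx | hx
      · exact hpK x hx
      · rcases List.mem_cons.1 hx with rfl | hx
        · exact hh
        · exact (hsK x hx).1
    · rcases p with _ | ⟨a, p⟩
      · simpa using hhead
      · simpa using hhead
    · simp
  · -- `z ∈ s`
    obtain ⟨s1, s2, rfl⟩ := List.append_of_mem hz
    have hs1 : (s1 ++ [z]).IsChain G.Adj := by
      have := hs.1
      rw [List.isChain_split] at this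
      exact this.1
    have hs2 : (z :: s2).IsChain G.Adj := by
      have := hs.1
      rw [List.isChain_split] at this
      exact this.2
    have hnds := hs.2
    have hzr : (z :: s1.reverse).IsChain G.Adj := by
      have := hsym _ hs1
      simpa using this
    have hr : (z :: s1.reverse ++ h :: s2).IsChain G.Adj := by
      rw [List.isChain_append]
      refine ⟨hzr, ?_, ?_⟩
      · rw [List.isChain_cons]
        refine ⟨fun y hy => (hsK y ?_).2, ?_⟩
        · have := List.mem_of_head? hy
          simp [this]
        · exact hs2.tail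
      · intro x hx y hy
        have hxm : x ∈ z :: s1.reverse := List.mem_of_getLast? hx
        have hy' : h = y := by simpa using hy
        subst hy'
        refine ((hsK x ?_).2).symm
        rcases List.mem_cons.1 hxm with rfl | hxm
        · simp
        · have := List.mem_reverse.1 hxm
          simp [this]
    refine ⟨p ++ z :: (s1.reverse ++ h :: s2), ⟨?_, ?_⟩, ?_, ?_, ?_⟩
    · rw [List.isChain_split]
      exact ⟨hpz, hr⟩
    · rw [List.nodup_append]
      refine ⟨hpn, ?_, ?_⟩
      · have h1 : (z :: (s1.reverse ++ h :: s2)).Perm (h :: (s1 ++ z :: s2)) := by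
          have e1 : (s1.reverse ++ h :: s2).Perm (h :: (s1 ++ s2)) :=
            (List.perm_middle).trans (List.Perm.cons _ ((List.reverse_perm s1).append_right s2))
          have e2 : (z :: (s1.reverse ++ h :: s2)).Perm (z :: h :: (s1 ++ s2)) :=
            List.Perm.cons _ e1
          have e3 : (z :: h :: (s1 ++ s2)).Perm (h :: z :: (s1 ++ s2)) := List.Perm.swap _ _ _
          have e4 : (h :: z :: (s1 ++ s2)).Perm (h :: (s1 ++ z :: s2)) :=
            List.Perm.cons _ List.perm_middle.symm
          exact e2.trans (e3.trans e4)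
        rw [h1.nodup_iff]
        exact List.nodup_cons.2 ⟨hhs, hnds⟩
      · intro a ha b hb hab
        subst hab
        have hb' : a = z ∨ a ∈ s1 ∨ a = h ∨ a ∈ s2 := by
          simpa using hb
        rcases hb' with rfl | hb' | rfl | hb'
        · exact hps a ha (by simp)
        · exact hps a ha (by simp [hb'])
        · exact hph ha
        · exact hps a ha (by simp [hb'])
    · intro x hx
      have hx' : x ∈ p ∨ x = z ∨ x ∈ s1 ∨ x = h ∨ x ∈ s2 := by
        simpa using hx
      rcases hx' with hx | rfl | hx | rfl | hx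
      · exact hpK x hx
      · exact (hsK x (by simp)).1
      · exact (hsK x (by simp [hx])).1
      · exact hh
      · exact (hsK x (by simp [hx])).1
    · rcases p with _ | ⟨a, p⟩
      · simpa using hhead
      · simpa using hhead
    · simp

end Pool.Agent.PF
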