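import Pool.Agent.Lib_helper30.PF.Defs

/-! BLOCK F (flank counting) of the P5-free longest path theorem -/

set_option autoImplicit false

namespace Pool.Agent.PF

variable {V : Type*}

theorem F_flank {R : List V} (hR : R.Nodup) {S T : Finset V} (hS : S.Nonempty)
    (h : ∀ s ∈ S, ∃ (A B : List V) (t t' : V), R = A ++ t :: s :: t' :: B ∧ t ∈ T ∧ t' ∈ T) :
    S.card + 1 ≤ T.card := by
  classical
  have key : ∀ s ∈ S, ∃ (k : ℕ) (t t' : V), R[k]? = some t ∧ R[k + 1]? = some s ∧
      R[k + 2]? = some t' ∧ t ∈ T ∧ t' ∈ T := by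
    intro s hs
    obtain ⟨A, B, t, t', hR', ht, ht'⟩ := h s hs
    refine ⟨A.length, t, t', ?_, ?_, ?_, ht, ht'⟩
    · rw [hR', List.getElem?_append_right (le_refl _)]
      simp
    · rw [hR', List.getElem?_append_right (by omega)]
      simp
    · rw [hR', List.getElem?_append_right (by omega)]
      simp
  choose! k t t' h1 h2 h3 h4 h5 using key
  have hinj : ∀ i j : ℕ, ∀ x : V, R[i]? = some x → R[j]? = some x → i = j := by
    intro i j x hi hj
    obtain ⟨hi1, hi2⟩ := List.getElem?_eq_some_iff.1 hi
    obtain ⟨hj1, hj2⟩ := List.getElem?_eq_some_iff.1 hj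
    exact (hR.getElem_inj_iff).1 (hi2.trans hj2.symm)
  obtain ⟨s0, hs0, hmin⟩ := S.exists_min_image k hS
  have hsub : insert (t s0) (S.image t') ⊆ T := by
    intro x hx
    rcases Finset.mem_insert.1 hx with rfl | hx
    · exact h4 s0 hs0
    · obtain ⟨s, hs, rfl⟩ := Finset.mem_image.1 hx
      exact h5 s hs
  have hcard : (insert (t s0) (S.image t')).card = S.card + 1 := by
    rw [Finset.card_insert_of_notMem, Finset.card_image_of_injOn]
    · intro s hs s' hs' he
      have he' : t' s = t' s' := he
      have e1 := h3 s hs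
      have e2 := h3 s' hs'
      rw [he'] at e1
      have e3 := hinj _ _ _ e1 e2
      have e4 := h2 s hs
      have e5 := h2 s' hs'
      have e6 : k s = k s' := by omega
      rw [e6, e5] at e4
      exact (Option.some.inj e4).symm
    · intro hx
      obtain ⟨s, hs, he⟩ := Finset.mem_image.1 hx
      have e1 := h3 s hs
      rw [he] at e1
      have e2 := hinj _ _ _ e1 (h1 s0 hs0)
      have := hmin s hs
      omega
  rw [← hcard]
  exact Finset.card_le_card hsub

end Pool.Agent.PF
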