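import Pool.Agent.Lib_helper30.PF.W.A
import Pool.Agent.Lib_helper30.PF.W.B
import Pool.Agent.Lib_helper30.PF.W.C
import Pool.Agent.Lib_helper30.PF.W.D

/-! BLOCK G (case 1) of the P5-free longest path theorem -/

set_option autoImplicit false

namespace Pool.Agent.PF

variable {V : Type*}

theorem G_next_adj {G : SimpleGraph V} {P : List V} (hP : P.IsChain G.Adj) {x y : V} (h : Next P x y) :
    G.Adj x y := by
  obtain ⟨A, B, rfl⟩ := h
  have h2 := (List.isChain_append.1 hP).2.1
  simp only [List.isChain_cons_cons] at h2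
  exact h2.1

theorem G_next_mem {P : List V} {x y : V} (h : Next P x y) : y ∈ P := by
  obtain ⟨A, B, rfl⟩ := h
  simp

theorem G_succ {G : SimpleGraph V} {P : List V} {C : Set V} (hP : Lng G P) (hC : Comp G (Off P) C)
    {x : V} (hx : x ∈ Nb G C) : ∃ b : V, Next P x b := by
  obtain ⟨A, B, a, b, h, -, -⟩ := B_inner hP hC hx
  exact ⟨b, A ++ [a], B, by rw [h]; simp⟩

theorem G_succ_not {G : SimpleGraph V} {P : List V} {C : Set V} (hP : Lng G P) (hC : Comp G (Off P) C)
    {x y : V} (hx : x ∈ Nb G C) (h : Next P x y) : y ∉ Nb G C := by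
  obtain ⟨A, B, a, b, hh, -, hb⟩ := B_inner hP hC hx
  have h2 : Next P x b := ⟨A ++ [a], B, by rw [hh]; simp⟩
  rwa [A_next_fun hP.1.2 h h2]

theorem G_case1 [Finite V] {G : SimpleGraph V} (h5 : NoP5 G) {P : List V} {C D0 : Set V} {g : V}
    (hP : Lng G P) (hC : Comp G (Off P) C)
    (hmax : ∀ (Q : List V) (D : Set V), Lng G Q → Comp G (Off Q) D →
      (D ∪ Nb G D).ncard ≤ (C ∪ Nb G C).ncard)
    (hg : g ∈ Nb G C) (hgC : ∀ c ∈ C, G.Adj g c)
    (hD0 : Comp G (Nb G C)ᶜ D0) (hgD : Tch G g D0)
    (hT : ∀ y ∈ Nb G C, Tch G y D0 → (TT G C y).ncard ≤ (TT G C g).ncard)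
    (hS : ∀ y ∈ Nb G C, Tch G y D0 → (TT G C y).ncard = (TT G C g).ncard →
      (NS G P C y).ncard ≤ (NS G P C g).ncard)
    {Q : List V} (hQ : Lng G Q) : g ∈ Q := by
  classical
  by_contra hgQ
  have hBC := B_comp hC
  have hdom : ∀ y ∈ Nb G C, ¬ G.Adj g y → ∀ y', Next P y y' → y ≠ g → G.Adj g y' := by
    intro y hy hgy y' hN hyg
    by_contra hgy'
    have hyy' := G_next_adj hP.1.1 hN
    have hy'P := G_next_mem hN
    have hy'X := G_succ_not hP hC hy hN
    obtain ⟨-, c, hc, hyc⟩ := id hy
    have hcy' := (B_anti hC hc hy'P hy'X).1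
    have hsub : TT G C g ⊆ TT G C y := by
      rintro F ⟨hF, f, hf, hgf⟩
      refine ⟨hF, ?_⟩
      by_contra hyF
      refine h5 f g c y y' hgf.symm (hgC c hc) hyc.symm hyy' ?_ ?_ ?_ hgy hgy' hcy'
      · intro h
        exact hyF ⟨c, hF.2.2 f hf c (hBC.2.1 hc) h, hyc⟩
      · intro h
        exact hyF ⟨f, hf, h.symm⟩
      · intro h
        exact hyF ⟨y', hF.2.2 f hf y' hy'X h, hyy'⟩
    have hyD : Tch G y D0 := (hsub (show D0 ∈ TT G C g from ⟨hD0, hgD⟩)).2
    have heq : (TT G C y).ncard = (TT G C g).ncard :=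
      le_antisymm (hT y hy hyD) (Set.ncard_le_ncard hsub (Set.toFinite _))
    have hle := hS y hy hyD heq
    have hy'N : y' ∈ NS G P C y := ⟨hyy', y, hy, hN⟩
    have hex : ∃ s ∈ NS G P C g, s ∉ NS G P C y := by
      by_contra hno
      push Not at hno
      have hlt : (NS G P C g).ncard < (NS G P C y).ncard := by
        apply Set.ncard_lt_ncard _ (Set.toFinite _)
        exact ⟨hno, fun h => hgy' (h hy'N).1⟩
      omega
    obtain ⟨s, ⟨hgs, x, hx, hxs⟩, hsy⟩ := hex
    have hys : ¬ G.Adj y s := fun h => hsy ⟨h, x, hx, hxs⟩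
    have hxy : x ≠ y := by
      rintro rfl
      exact hgy' (A_next_fun hP.1.2 hxs hN ▸ hgs)
    have hsP := G_next_mem hxs
    have hsX := G_succ_not hP hC hx hxs
    exact h5 s g c y y' hgs.symm (hgC c hc) hyc.symm hyy' (B_anti hC hc hsP hsX).2
      (fun h => hys h.symm) (B_indep hP hC hx hy hxy hxs hN) hgy hgy' hcy'
  -- successors
  have hσ' : ∀ v, ∃ w, v ∈ Nb G C → Next P v w := by
    intro v
    by_cases hv : v ∈ Nb G C
    · obtain ⟨b, hb⟩ := G_succ hP hC hv
      exact ⟨b, fun _ => hb⟩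
    · exact ⟨v, fun h => absurd h hv⟩
  choose σ hσ using hσ'
  have hcard : (C ∪ Nb G C).ncard ≤ (G.neighborSet g).ncard := by
    refine Set.ncard_le_ncard_of_injOn
      (fun v => if v ∈ C then v else if G.Adj g v then v else σ v) ?_ ?_ (Set.toFinite _)
    · intro v hv
      simp only [SimpleGraph.mem_neighborSet]
      by_cases hvC : v ∈ C
      · simp only [hvC, if_true]
        exact hgC v hvC
      · have hvX : v ∈ Nb G C := by
          rcases hv with h | h
          · exact absurd h hvC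
          · exact h
        simp only [hvC, if_false]
        split_ifs with h
        · exact h
        · by_cases hvg : v = g
          · subst hvg
            exact G_next_adj hP.1.1 (hσ v hvX)
          · exact hdom v hvX h (σ v) (hσ v hvX) hvg
    · have hkey : ∀ v ∈ Nb G C, σ v ∉ C ∧ σ v ∉ Nb G C := by
        intro v hv
        refine ⟨fun h => hC.2.1 h (G_next_mem (hσ v hv)), G_succ_not hP hC hv (hσ v hv)⟩
      intro v hv w hw hvw
      have hX : ∀ u ∈ C ∪ Nb G C, u ∉ C → u ∈ Nb G C := by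
        intro u hu h
        rcases hu with h' | h'
        · exact absurd h' h
        · exact h'
      simp only at hvw
      by_cases hvC : v ∈ C <;> by_cases hwC : w ∈ C
      · simpa [hvC, hwC] using hvw
      · simp only [hvC, hwC, if_true, if_false] at hvw
        have hwX := hX w hw hwC
        split_ifs at hvw with h
        · exact hvw
        · exact absurd (hvw ▸ hvC) (hkey w hwX).1
      · simp only [hvC, hwC, if_true, if_false] at hvw
        have hvX := hX v hv hvC
        split_ifs at hvw with h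
        · exact hvw
        · exact absurd (hvw ▸ hwC) (hkey v hvX).1
      · simp only [hvC, hwC, if_false] at hvw
        have hvX := hX v hv hvC
        have hwX := hX w hw hwC
        split_ifs at hvw with h1 h2 h2
        · exact hvw
        · exact absurd (hvw ▸ hvX) (hkey w hwX).2
        · exact absurd (hvw ▸ hwX) (hkey v hvX).2
        · have h3 := hσ v hvX
          rw [hvw] at h3
          exact A_next_inj hP.1.2 h3 (hσ w hwX)
  obtain ⟨C', hC', hgC'⟩ := C_exists (G := G) (S := Off Q) (a := g) hgQ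
  have hsub2 : insert g (G.neighborSet g) ⊆ C' ∪ Nb G C' := by
    intro v hv
    rcases hv with rfl | hv
    · exact Or.inl hgC'
    · by_cases h : v ∈ C'
      · exact Or.inl h
      · exact Or.inr ⟨h, g, hgC', (show G.Adj g v from hv).symm⟩
  have h1 := Set.ncard_le_ncard hsub2 (Set.toFinite _)
  rw [Set.ncard_insert_of_notMem (by simp) (Set.toFinite _)] at h1
  have h2 := hmax Q C' hQ hC'
  omega

end Pool.Agent.PF
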