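import Pool.Agent.Lib_helper30.PF.W.A
import Pool.Agent.Lib_helper30.PF.W.B
import Pool.Agent.Lib_helper30.PF.W.C
import Pool.Agent.Lib_helper30.PF.W.F

/-! BLOCK H (case 2, part a) of the P5-free longest path theorem -/

set_option autoImplicit false

namespace Pool.Agent.PF

variable {V : Type*}

theorem H_next_adj {G : SimpleGraph V} {P : List V} (hP : P.IsChain G.Adj) {x y : V} (h : Next P x y) :
    G.Adj x y := by
  obtain ⟨A, B, rfl⟩ := h
  have h2 := (List.isChain_append.1 hP).2.1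
  simp only [List.isChain_cons_cons] at h2
  exact h2.1

/-- a vertex off a longest path: its neighbours are inner and not consecutive -/
theorem H_inner {G : SimpleGraph V} {Q : List V} (hQ : Lng G Q) {g w : V} (hg : g ∉ Q) (hw : w ∈ Q)
    (h : G.Adj g w) : ∃ (A B : List V) (t t' : V), Q = A ++ t :: w :: t' :: B ∧
      Next Q t w ∧ Next Q w t' ∧ ¬ G.Adj g t ∧ ¬ G.Adj g t' := by
  obtain ⟨A, B, hAB⟩ := List.append_of_mem hw
  have hone : IsP G [g] := ⟨List.isChain_singleton _, List.nodup_singleton _⟩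
  have hA : 1 ≤ A.length := by
    refine A_prefix (m := [g]) (z := g) hQ hAB hone ?_ rfl h
    intro v hv hvB
    rw [List.mem_singleton] at hv
    subst hv
    exact hg (by rw [hAB]; exact List.mem_append_right _ hvB)
  have hB : 1 ≤ B.length := by
    refine A_suffix (m := [g]) (z := g) hQ hAB hone ?_ rfl h.symm
    intro v hv hvA
    rw [List.mem_singleton] at hv
    subst hv
    apply hg
    rw [hAB]
    simp only [List.mem_append, List.mem_cons, List.not_mem_nil, or_false] at hvA ⊢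
    tauto
  obtain ⟨A', a, rfl⟩ : ∃ A' a, A = A' ++ [a] := by
    rcases List.eq_nil_or_concat A with h | ⟨A', a, h⟩
    · subst h
      simp at hA
    · exact ⟨A', a, by simpa using h⟩
  obtain ⟨b, B', rfl⟩ : ∃ b B', B = b :: B' := by
    cases B with
    | nil => simp at hB
    | cons b B' => exact ⟨b, B', rfl⟩
  have hQd : Q = A' ++ a :: w :: b :: B' := by rw [hAB]; simp
  have hn1 : Next Q a w := ⟨A', b :: B', hQd⟩
  have hn2 : Next Q w b := ⟨A' ++ [a], B', by rw [hQd]; simp⟩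
  have hd : ∀ v ∈ [g], v ∉ Q := by
    intro v hv
    rw [List.mem_singleton] at hv
    subst hv
    exact hg
  refine ⟨A', B', a, b, hQd, hn1, hn2, ?_, ?_⟩
  · intro h'
    exact A_insert hQ hn1 hone hd rfl rfl h'.symm h
  · intro h'
    exact A_insert hQ hn2 hone hd rfl rfl h.symm h'

theorem H_avoid [Finite V] {G : SimpleGraph V} {P : List V} {C : Set V} {g : V}
    (hP : Lng G P) (hC : Comp G (Off P) C) (hg : g ∈ Nb G C)
    (hW : ∀ K, Comp G (Nb G C)ᶜ K → K ≠ C → Tch G g K → ∀ v ∈ K, G.Adj g v)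
    (hT : ∀ y ∈ Nb G C, y ≠ g → ¬ G.Adj g y → ∀ K, Comp G (Nb G C)ᶜ K → Tch G y K → Tch G g K)
    {Q : List V} (hQ : Lng G Q) (hgQ : g ∉ Q) :
    ∀ K, Comp G (Nb G C)ᶜ K → K ≠ C → Tch G g K → ∀ v ∈ K, v ∉ Q := by
  classical
  intro K hK hKC hgK v hvK hvQ
  let W : Set V := {w | ∃ K, Comp G (Nb G C)ᶜ K ∧ K ≠ C ∧ Tch G g K ∧ w ∈ K}
  have hWg : ∀ w ∈ W, G.Adj g w := by
    rintro w ⟨L, hL, hLC, hgL, hwL⟩
    exact hW L hL hLC hgL w hwL
  have hWX : ∀ w ∈ W, ∀ t, G.Adj w t → ¬ G.Adj g t → t ∈ Nb G C := by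
    rintro w ⟨L, hL, hLC, hgL, hwL⟩ t hwt hgt
    by_contra ht
    exact hgt (hW L hL hLC hgL t (hL.2.2 w hwL t ht hwt))
  let SW : Finset V := Q.toFinset.filter (fun w => w ∈ W)
  let T : Finset V := Q.toFinset.filter
    (fun z => z ∈ Nb G C ∧ ¬ G.Adj g z ∧ ∃ w ∈ W, Next Q z w ∨ Next Q w z)
  have hSW : SW.Nonempty := ⟨v, by
    simp only [SW, Finset.mem_filter, List.mem_toFinset]
    exact ⟨hvQ, K, hK, hKC, hgK, hvK⟩⟩
  have h1 : SW.card + 1 ≤ T.card := by
    refine F_flank hQ.1.2 hSW ?_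
    intro w hw
    simp only [SW, Finset.mem_filter, List.mem_toFinset] at hw
    obtain ⟨hwQ, hwW⟩ := hw
    obtain ⟨A, B, t, t', hd, hn1, hn2, hgt, hgt'⟩ := H_inner hQ hgQ hwQ (hWg w hwW)
    refine ⟨A, B, t, t', hd, ?_, ?_⟩
    · simp only [T, Finset.mem_filter, List.mem_toFinset]
      refine ⟨by rw [hd]; simp, hWX w hwW t (H_next_adj hQ.1.1 hn1).symm hgt, hgt, w, hwW, Or.inl hn1⟩
    · simp only [T, Finset.mem_filter, List.mem_toFinset]
      refine ⟨by rw [hd]; simp, hWX w hwW t' (H_next_adj hQ.1.1 hn2) hgt', hgt', w, hwW, Or.inr hn2⟩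
  have hTne : T.Nonempty := by
    rw [← Finset.card_pos]
    omega
  have h2 : T.card + 1 ≤ SW.card := by
    refine F_flank hP.1.2 hTne ?_
    intro z hz
    simp only [T, Finset.mem_filter, List.mem_toFinset] at hz
    obtain ⟨hzQ, hzX, hgz, w, hwW, hzw⟩ := hz
    have hzg : z ≠ g := fun h => hgQ (h ▸ hzQ)
    obtain ⟨A, B, a, b, hd, haX, hbX⟩ := B_inner hP hC hzX
    have hza : G.Adj z a := by
      exact (H_next_adj hP.1.1 ⟨A, b :: B, hd⟩ : G.Adj a z).symm
    have hzb : G.Adj z b := H_next_adj hP.1.1 ⟨A ++ [a], B, by rw [hd]; simp⟩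
    have key : ∀ c, c ∈ P → c ∉ Nb G C → G.Adj z c → c ∈ SW := by
      intro c hcP hcX hzc
      obtain ⟨L, hL, hcL⟩ := C_exists (G := G) (S := (Nb G C)ᶜ) (a := c) hcX
      have hLC : L ≠ C := by
        rintro rfl
        exact hC.2.1 hcL hcP
      have hgL := hT z hzX hzg hgz L hL ⟨c, hcL, hzc⟩
      have hcW : c ∈ W := ⟨L, hL, hLC, hgL, hcL⟩
      simp only [SW, Finset.mem_filter, List.mem_toFinset]
      refine ⟨?_, hcW⟩
      by_contra hcQ
      have hgc := hWg c hcW
      have hgw := hWg w hwW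
      rcases hzw with hn | hn
      · refine A_insert (m := [c, g]) (z := c) (w := g) hQ hn ?_ ?_ rfl rfl hzc hgw
        · exact ⟨by simp [hgc.symm], by simp [hgc.ne']⟩
        · intro u hu
          simp only [List.mem_cons, List.not_mem_nil, or_false] at hu
          rcases hu with rfl | rfl
          · exact hcQ
          · exact hgQ
      · refine A_insert (m := [g, c]) (z := g) (w := c) hQ hn ?_ ?_ rfl rfl hgw.symm hzc.symm
        · exact ⟨by simp [hgc], by simp [hgc.ne]⟩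
        · intro u hu
          simp only [List.mem_cons, List.not_mem_nil, or_false] at hu
          rcases hu with rfl | rfl
          · exact hgQ
          · exact hcQ
    exact ⟨A, B, a, b, hd, key a (by rw [hd]; simp) haX hza, key b (by rw [hd]; simp) hbX hzb⟩
  omega

end Pool.Agent.PF
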