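import Pool.Agent.Lib_helper30.PF.W.A
import Pool.Agent.Lib_helper30.PF.W.B
import Pool.Agent.Lib_helper30.PF.W.C
import Pool.Agent.Lib_helper30.PF.W.D
import Pool.Agent.Lib_helper30.PF.W.E
import Pool.Agent.Lib_helper30.PF.W.H

/-! BLOCK I (case 2, end) of the P5-free longest path theorem -/

set_option autoImplicit false

namespace Pool.Agent.PF

variable {V : Type*}

/-- last element with a property -/
theorem I_last {p : V → Prop} : ∀ {l : List V}, (∃ z ∈ l, p z) →
    ∃ (A H : List V) (y : V), l = A ++ y :: H ∧ p y ∧ ∀ z ∈ H, ¬ p z := by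
  intro l
  induction l with
  | nil => rintro ⟨z, hz, -⟩; simp at hz
  | cons a l ih =>
    intro h
    by_cases hl : ∃ z ∈ l, p z
    · obtain ⟨A, H, y, h1, h2, h3⟩ := ih hl
      exact ⟨a :: A, H, y, by rw [h1]; rfl, h2, h3⟩
    · obtain ⟨z, hz, hpz⟩ := h
      rcases List.mem_cons.1 hz with rfl | hz'
      · refine ⟨[], l, z, rfl, hpz, fun w hw hpw => hl ⟨w, hw, hpw⟩⟩
      · exact absurd ⟨z, hz', hpz⟩ hl

/-- first element with a property -/
theorem I_first {p : V → Prop} : ∀ {l : List V}, (∃ z ∈ l, p z) →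
    ∃ (A H : List V) (y : V), l = A ++ y :: H ∧ p y ∧ ∀ z ∈ A, ¬ p z := by
  intro l
  induction l with
  | nil => rintro ⟨z, hz, -⟩; simp at hz
  | cons a l ih =>
    intro h
    by_cases ha : p a
    · exact ⟨[], l, a, rfl, ha, by simp⟩
    · obtain ⟨z, hz, hpz⟩ := h
      rcases List.mem_cons.1 hz with rfl | hz'
      · exact absurd hpz ha
      · obtain ⟨A, H, y, h1, h2, h3⟩ := ih ⟨z, hz', hpz⟩
        refine ⟨a :: A, H, y, by rw [h1]; rfl, h2, ?_⟩
        intro w hw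
        rcases List.mem_cons.1 hw with rfl | hw'
        · exact ha
        · exact h3 w hw'

theorem I_suffix {G : SimpleGraph V} {A B : List V} (h : IsP G (A ++ B)) : IsP G B :=
  ⟨(List.isChain_append.1 h.1).2.1, (List.nodup_append.1 h.2).2.1⟩

theorem I_prefix {G : SimpleGraph V} {A B : List V} (h : IsP G (A ++ B)) : IsP G A :=
  ⟨(List.isChain_append.1 h.1).1, (List.nodup_append.1 h.2).1⟩

theorem I_case2 [Finite V] {G : SimpleGraph V} (hG : Conn G Set.univ) (h5 : NoP5 G) {P s0 : List V}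
    {C D0 : Set V} {g : V} (hP : Lng G P) (hC : Comp G (Off P) C) (hg : g ∈ Nb G C)
    (hmix : ∃ c ∈ C, ¬ G.Adj g c) (hD0 : Comp G (Nb G C)ᶜ D0) (hDC : D0 ≠ C) (hgD : Tch G g D0)
    (hs0 : IsP G s0) (hs0D : ∀ z ∈ s0, z ∈ D0)
    (hmax : ∀ K, Comp G (Nb G C)ᶜ K → K ≠ C → ∀ l : List V, IsP G l → (∀ z ∈ l, z ∈ K) →
      l.length ≤ s0.length)
    (hT : ∀ y ∈ Nb G C, y ≠ g → ¬ G.Adj g y → ∀ K, Comp G (Nb G C)ᶜ K → Tch G y K → Tch G g K)
    {Q : List V} (hQ : Lng G Q) : g ∈ Q := by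
  classical
  by_contra hgQ
  have hBC := B_comp hC
  have hgX : g ∉ (Nb G C)ᶜ := fun h => h hg
  have hW : ∀ K, Comp G (Nb G C)ᶜ K → K ≠ C → Tch G g K → ∀ v ∈ K, G.Adj g v := by
    intro K hK hKC hgK
    exact D_mixed h5 hBC hK (Ne.symm hKC) hgX hg.2 hmix hgK
  have hav := H_avoid hP hC hg hW hT hQ hgQ
  obtain ⟨C', hC', hgC'⟩ := C_exists (G := G) (S := Off Q) (a := g) hgQ
  -- touched components lie in C'
  have hKC' : ∀ K, Comp G (Nb G C)ᶜ K → K ≠ C → Tch G g K → K ⊆ C' := by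
    intro K hK hKC hgK
    obtain ⟨u, huK, hgu⟩ := hgK
    have hcon : Conn G (insert g K) := C_insert hK.1 huK hgu
    have hsub : insert g K ⊆ Off Q := by
      intro v hv
      rcases hv with rfl | hv
      · exact hgQ
      · exact hav K hK hKC ⟨u, huK, hgu⟩ v hv
    exact (Set.subset_insert g K).trans (C_sub hC' hcon hsub hgC' (Set.mem_insert g K))
  -- X ∩ Q ⊆ N(C')
  have hXQ : ∀ y ∈ Nb G C, y ∈ Q → y ∈ Nb G C' := by
    intro y hy hyQ
    have hyC' : y ∉ C' := fun h => hC'.2.1 h hyQ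
    by_cases hgy : G.Adj g y
    · exact ⟨hyC', g, hgC', hgy.symm⟩
    · have hyg : y ≠ g := fun h => hgQ (h ▸ hyQ)
      obtain ⟨A, B, a, b, hPab, haX, hbX⟩ := B_inner hP hC hy
      have hbP : b ∈ P := by rw [hPab]; simp
      obtain ⟨Kb, hKb, hbKb⟩ := C_exists (G := G) (S := (Nb G C)ᶜ) (a := b) hbX
      have hKbC : Kb ≠ C := by
        rintro rfl
        exact hC.2.1 hbKb hbP
      have hyb : G.Adj y b := by
        have h1 := hP.1.1
        rw [hPab] at h1
        have h2 := (List.isChain_append.1 h1).2.1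
        simp only [List.isChain_cons_cons] at h2
        exact h2.2.1
      have hgK := hT y hy hyg hgy Kb hKb ⟨b, hbKb, hyb⟩
      exact ⟨hyC', b, hKC' Kb hKb hKbC hgK hbKb, hyb⟩
  -- the last vertex of Q in N(C')
  have hQne : Q ≠ [] := by
    rintro rfl
    have h1 := hQ.2 [g] ⟨List.isChain_singleton _, List.nodup_singleton _⟩
    simp at h1
  obtain ⟨q0, hq0⟩ := List.exists_mem_of_ne_nil Q hQne
  obtain ⟨⟨y0, hy0⟩, -⟩ := C_nb hG hC' ⟨q0, fun h => h hq0⟩
  obtain ⟨A, H, y, hQd, hyY, hHY⟩ := I_last (p := fun z => z ∈ Nb G C') (l := Q)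
    ⟨y0, B_sub hC' y0 hy0, hy0⟩
  obtain ⟨-, c0, hc0, hyc0⟩ := id hyY
  have hs0C' : ∀ z ∈ s0, z ∈ C' ∧ G.Adj g z := fun z hz =>
    ⟨hKC' D0 hD0 hDC hgD (hs0D z hz), hW D0 hD0 hDC hgD z (hs0D z hz)⟩
  obtain ⟨l, hl, hlC', hlh, hll⟩ := E_long hC'.1 hgC' hs0 hs0C' hc0
  have hlen : s0.length + 1 ≤ H.length := by
    refine hll.trans (A_suffix hQ hQd hl ?_ hlh hyc0)
    intro v hv hvA
    apply hC'.2.1 (hlC' v hv)
    rw [hQd]
    simp only [List.mem_append, List.mem_cons, List.not_mem_nil, or_false] at hvA ⊢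
    tauto
  have hHne : H ≠ [] := by
    rintro rfl
    simp at hlen
  have hH : IsP G H := by
    have h1 := hQ.1
    rw [hQd] at h1
    have h2 := I_suffix h1
    exact I_suffix (A := [y]) h2
  have hHQ : ∀ z ∈ H, z ∈ Q := by
    intro z hz
    rw [hQd]
    simp [hz]
  have hHX : ∀ z ∈ H, z ∈ (Nb G C)ᶜ := by
    intro z hz hzX
    exact hHY z hz (hXQ z hzX (hHQ z hz))
  obtain ⟨E, hE, hHE⟩ := C_path hH hHX hHne
  have hEC : E = C := by
    by_contra hne
    have := hmax E hE hne H hH hHE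
    omega
  subst hEC
  -- g :: s0 is a path off Q
  have hgs0 : IsP G (g :: s0) := by
    constructor
    · rw [List.isChain_cons]
      refine ⟨?_, hs0.1⟩
      intro z hz
      exact (hs0C' z (List.mem_of_mem_head? hz)).2
    · refine List.nodup_cons.2 ⟨?_, hs0.2⟩
      intro h
      exact hD0.2.1 (hs0D g h) hg
  -- the final segment
  obtain ⟨b, hb, hbH, hbg, hblen⟩ : ∃ b : List V, IsP G b ∧ (∀ z ∈ b, z ∈ H) ∧
      (∀ z ∈ b, ¬ G.Adj g z) ∧ s0.length + 1 ≤ b.length := by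
    by_cases hex : ∃ z ∈ H, G.Adj g z
    · obtain ⟨H1, b, a, hHd, hga, hb⟩ := I_last (p := fun z => G.Adj g z) hex
      refine ⟨b, ?_, ?_, hb, ?_⟩
      · have h1 := hH
        rw [hHd] at h1
        exact I_suffix (A := [a]) (I_suffix h1)
      · intro z hz
        rw [hHd]
        simp [hz]
      · have h2 : Q = (A ++ y :: H1) ++ a :: b := by
          rw [hQd, hHd]
          simp
        have h3 := A_suffix (m := g :: s0) (z := g) hQ h2 hgs0 ?_ rfl hga.symm
        · simpa using h3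
        · intro v hv hvA
          have hvQ : v ∈ Q := by
            rw [h2]
            simp only [List.mem_append, List.mem_cons, List.not_mem_nil, or_false] at hvA ⊢
            tauto
          rcases List.mem_cons.1 hv with rfl | hv'
          · exact hgQ hvQ
          · exact hC'.2.1 (hs0C' v hv').1 hvQ
    · push Not at hex
      exact ⟨H, hH, fun z hz => hz, hex, hlen⟩
  have hbne : b ≠ [] := by
    rintro rfl
    simp at hblen
  obtain ⟨-, a0, ha0, hga0⟩ := id hg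
  obtain ⟨w, hwD, hgw⟩ := hgD
  have hCw : ∀ c ∈ E, ¬ G.Adj c w := by
    intro c hc hcw
    have hwE : w ∈ E := hBC.2.2 c hc w (hD0.2.1 hwD) hcw
    exact hDC (C_unique hD0 hBC hwD hwE)
  obtain ⟨a, haE, hga, hab⟩ := D_pure h5 hC.1 hg.1 ha0 hga0 hgw hCw hb hbne
    (fun z hz => ⟨hHE z (hbH z hz), hbg z hz⟩)
  -- the first vertex of P in X
  obtain ⟨S0, B1, x1, hPd, hx1, hS0⟩ := I_first (p := fun z => z ∈ Nb G E) (l := P)
    ⟨g, B_sub hC g hg, hg⟩
  have hS0P : ∀ z ∈ S0, z ∈ P := by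
    intro z hz
    rw [hPd]
    simp [hz]
  have hS0len : S0.length ≤ s0.length := by
    by_cases hne : S0 = []
    · simp [hne]
    · have hS0p : IsP G S0 := by
        have h1 := hP.1
        rw [hPd] at h1
        exact I_prefix h1
      obtain ⟨E0, hE0, hSE0⟩ := C_path hS0p (S := (Nb G E)ᶜ) hS0 hne
      refine hmax E0 hE0 ?_ S0 hS0p hSE0
      rintro rfl
      obtain ⟨z, hz⟩ := List.exists_mem_of_ne_nil S0 hne
      exact hC.2.1 (hSE0 z hz) (hS0P z hz)
  obtain ⟨-, c1, hc1, hxc1⟩ := id hx1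
  obtain ⟨l', hl', hl'C, hl'h, hl'l⟩ := E_long hC.1 haE hb
    (fun z hz => ⟨hHE z (hbH z hz), hab z hz⟩) hc1
  have hfin : l'.reverse.length ≤ S0.length := by
    refine A_prefix (z := c1) hP hPd ?_ ?_ ?_ hxc1.symm
    · refine ⟨?_, List.nodup_reverse.2 hl'.2⟩
      rw [List.isChain_reverse]
      exact hl'.1.imp (fun a b h => h.symm)
    · intro v hv hvB
      apply hC.2.1 (hl'C v (List.mem_reverse.1 hv))
      rw [hPd]
      exact List.mem_append_right _ hvB
    · rw [List.getLast?_reverse]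
      exact hl'h
  rw [List.length_reverse] at hfin
  omega

end Pool.Agent.PF
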