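import Pool.Agent.Lib_helper30.PF.Defs

/-! BLOCK M (maximum) of the P5-free longest path theorem -/

set_option autoImplicit false

namespace Pool.Agent.PF

variable {V : Type*}

theorem M_max {α : Type*} {p : α → Prop} (f : α → ℕ) (N : ℕ) (hne : ∃ a, p a) (hb : ∀ a, p a → f a ≤ N) :
    ∃ a, p a ∧ ∀ b, p b → f b ≤ f a := by
  classical
  obtain ⟨a0, ha0⟩ := hne
  have h1 := Nat.findGreatest_spec (P := fun n => ∃ a, p a ∧ f a = n) (hb a0 ha0) ⟨a0, ha0, rfl⟩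
  obtain ⟨a, ha, hfa⟩ := h1
  refine ⟨a, ha, fun b hb' => ?_⟩
  rw [hfa]
  exact Nat.le_findGreatest (hb b hb') ⟨b, hb', rfl⟩

end Pool.Agent.PF
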