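import Pool.Agent.Lib_helper30.PF.W.G
import Pool.Agent.Lib_helper30.PF.W.I
import Pool.Agent.Lib_helper30.PF.W.M

/-! BLOCK J (assembly) of the P5-free longest path theorem -/

set_option autoImplicit false

namespace Pool.Agent.PF

variable {V : Type*}

theorem J_main [Finite V] {G : SimpleGraph V} (hG : Conn G Set.univ) (h5 : NoP5 G) :
    ∃ g : V, ∀ Q : List V, Lng G Q → g ∈ Q := by
  classical
  have := Fintype.ofFinite V
  by_contra hcon
  push Not at hcon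
  -- a vertex
  obtain ⟨v0, -⟩ := hG.1
  obtain ⟨Q0, hQ0, hv0⟩ := hcon v0
  obtain ⟨K0, hK0, hvK0⟩ := C_exists (G := G) (S := Off Q0) (a := v0) hv0
  -- the pair (P, C)
  obtain ⟨⟨P, C⟩, ⟨hP, hC⟩, hmax⟩ := M_max
    (p := fun x : List V × Set V => Lng G x.1 ∧ Comp G (Off x.1) x.2)
    (fun x => (x.2 ∪ Nb G x.2).ncard) (Nat.card V) ⟨(Q0, K0), hQ0, hK0⟩
    (fun x _ => by
      have := Set.ncard_le_ncard (Set.subset_univ (x.2 ∪ Nb G x.2)) Set.finite_univ
      rwa [Set.ncard_univ] at this)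
  simp only at hP hC hmax
  -- X is nonempty
  have hPne : P ≠ [] := by
    rintro rfl
    have h1 := hP.2 [v0] ⟨List.isChain_singleton _, List.nodup_singleton _⟩
    simp at h1
  obtain ⟨p0, hp0⟩ := List.exists_mem_of_ne_nil P hPne
  obtain ⟨hXne, -⟩ := C_nb hG hC ⟨p0, fun h => h hp0⟩
  obtain ⟨x0, hx0⟩ := hXne
  -- a component other than C
  obtain ⟨A, B, a, b, hPab, haX, hbX⟩ := B_inner hP hC hx0
  have haP : a ∈ P := by rw [hPab]; simp
  obtain ⟨Da, hDa, haDa⟩ := C_exists (G := G) (S := (Nb G C)ᶜ) (a := a) haX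
  have hDaC : Da ≠ C := by
    rintro rfl
    exact hC.2.1 haDa haP
  obtain ⟨⟨D0, s0⟩, ⟨hD0, hD0C, hs0, hs0D⟩, hmaxD⟩ := M_max
    (p := fun x : Set V × List V => Comp G (Nb G C)ᶜ x.1 ∧ x.1 ≠ C ∧ IsP G x.2 ∧ ∀ z ∈ x.2, z ∈ x.1)
    (fun x => x.2.length) (Fintype.card V)
    ⟨(Da, [a]), hDa, hDaC, ⟨List.isChain_singleton _, List.nodup_singleton _⟩, by simpa using haDa⟩
    (fun x hx => hx.2.2.1.2.length_le_card)
  simp only at hD0 hD0C hs0 hs0D hmaxD
  -- some vertex of X touches D0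
  obtain ⟨⟨x1, hx1⟩, hx1'⟩ := C_nb hG hD0 ⟨x0, fun h => h hx0⟩
  have hx1X : x1 ∈ Nb G C := by
    have := hx1' x1 hx1
    simpa using this
  have hx1D : Tch G x1 D0 := hx1.2
  -- g
  obtain ⟨g1, ⟨hg1, hg1D⟩, hg1max⟩ := M_max
    (p := fun y : V => y ∈ Nb G C ∧ Tch G y D0) (fun y => (TT G C y).ncard) (Nat.card (Set V))
    ⟨x1, hx1X, hx1D⟩
    (fun y _ => by
      have := Set.ncard_le_ncard (Set.subset_univ (TT G C y)) Set.finite_univ
      rwa [Set.ncard_univ] at this)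
  obtain ⟨g, ⟨hg, hgD, hgT⟩, hgmax⟩ := M_max
    (p := fun y : V => y ∈ Nb G C ∧ Tch G y D0 ∧ (TT G C y).ncard = (TT G C g1).ncard)
    (fun y => (NS G P C y).ncard) (Nat.card V)
    ⟨g1, hg1, hg1D, rfl⟩
    (fun y _ => by
      have := Set.ncard_le_ncard (Set.subset_univ (NS G P C y)) Set.finite_univ
      rwa [Set.ncard_univ] at this)
  have hTmax : ∀ y ∈ Nb G C, Tch G y D0 → (TT G C y).ncard ≤ (TT G C g).ncard := by
    intro y hy hyD
    rw [hgT]
    exact hg1max y ⟨hy, hyD⟩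
  obtain ⟨Q, hQ, hgQ⟩ := hcon g
  by_cases hgC : ∀ c ∈ C, G.Adj g c
  · apply hgQ
    refine G_case1 h5 hP hC (fun Q' D' hQ' hD' => hmax (Q', D') ⟨hQ', hD'⟩) hg hgC hD0 hgD hTmax ?_ hQ
    intro y hy hyD hyT
    exact hgmax y ⟨hy, hyD, by rw [hyT, hgT]⟩
  · apply hgQ
    push Not at hgC
    refine I_case2 hG h5 hP hC hg hgC hD0 hD0C hgD hs0 hs0D ?_ ?_ hQ
    · intro K hK hKC l hl hlK
      exact hmaxD (K, l) ⟨hK, hKC, hl, hlK⟩
    · intro y hy hyg hgy K hK hyK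
      by_contra hgK
      have hBC := B_comp hC
      have hsub : TT G C g ⊆ TT G C y := by
        rintro F ⟨hF, hgF⟩
        refine ⟨hF, ?_⟩
        by_contra hyF
        exact D_nested h5 hBC hF hK (x := g) (y := y) (fun h => h hg) (fun h => h hy) hgy hg.2 hy.2
          hgF hyF hyK hgK
      have hlt : (TT G C g).ncard < (TT G C y).ncard := by
        apply Set.ncard_lt_ncard _ (Set.toFinite _)
        refine ⟨hsub, fun h => hgK (h (show K ∈ TT G C y from ⟨hK, hyK⟩)).2⟩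
      have hyD : Tch G y D0 := (hsub (show D0 ∈ TT G C g from ⟨hD0, hgD⟩)).2
      exact absurd (hTmax y hy hyD) (by omega)

end Pool.Agent.PF
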