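import Pool.Agent.Lib_helper30.PF.Defs

/-! BLOCK K (transfer to Mathlib walks) of the P5-free longest path theorem -/

set_option autoImplicit false

namespace Pool.Agent.PF

variable {V : Type*}

theorem K_walk {G : SimpleGraph V} {a b : V} (p : G.Walk a b) (hp : p.IsPath) : IsP G p.support :=
  ⟨p.isChain_adj_support, hp.support_nodup⟩

theorem K_conn {G : SimpleGraph V} (hG : G.Connected) : Conn G Set.univ := by
  classical
  obtain ⟨x⟩ := hG.nonempty
  refine ⟨⟨x, Set.mem_univ x⟩, ?_⟩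
  intro a _ b _
  obtain ⟨q⟩ := hG.preconnected a b
  refine ⟨q.toPath.1.support, K_walk q.toPath.1 q.toPath.2, fun z _ => Set.mem_univ z, ?_, ?_⟩
  · rw [List.head?_eq_some_head q.toPath.1.support_ne_nil, SimpleGraph.Walk.head_support]
  · rw [List.getLast?_eq_some_getLast q.toPath.1.support_ne_nil, SimpleGraph.Walk.getLast_support]

theorem K_p5 {G : SimpleGraph V} (h : ¬ (SimpleGraph.pathGraph 5).IsIndContained G) : NoP5 G := by
  intro a b c d e hab hbc hcd hde nac nad nae nbd nbe nce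
  apply h
  have e1 : a ≠ c := fun q => nad (q ▸ hcd)
  have e2 : a ≠ d := fun q => nae (q ▸ hde)
  have e3 : a ≠ e := fun q => nad (q ▸ hde.symm)
  have e4 : b ≠ d := fun q => nad (q ▸ hab)
  have e5 : b ≠ e := fun q => nae (q ▸ hab)
  have e6 : c ≠ e := fun q => nbe (q ▸ hbc)
  have f1 := hab.ne
  have f2 := hbc.ne
  have f3 := hcd.ne
  have f4 := hde.ne
  have nca : ¬ G.Adj c a := fun q => nac q.symm
  have nda : ¬ G.Adj d a := fun q => nad q.symm
  have nea : ¬ G.Adj e a := fun q => nae q.symm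
  have ndb : ¬ G.Adj d b := fun q => nbd q.symm
  have neb : ¬ G.Adj e b := fun q => nbe q.symm
  have nec : ¬ G.Adj e c := fun q => nce q.symm
  have hba := hab.symm
  have hcb := hbc.symm
  have hdc := hcd.symm
  have hed := hde.symm
  refine ⟨⟨⟨![a, b, c, d, e], ?_⟩, ?_⟩⟩
  · intro i j hij
    fin_cases i <;> fin_cases j <;>
      simp_all [e1.symm, e2.symm, e3.symm, e4.symm, e5.symm, e6.symm, f1.symm, f2.symm, f3.symm,
        f4.symm]
  · intro i j
    show G.Adj ((![a, b, c, d, e] : Fin 5 → V) i) ((![a, b, c, d, e] : Fin 5 → V) j) ↔ _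
    rw [SimpleGraph.pathGraph_adj]
    fin_cases i <;> fin_cases j <;> simp [hab, hbc, hcd, hde, hba, hcb, hdc, hed, nac, nad, nae,
      nbd, nbe, nce, nca, nda, nea, ndb, neb, nec]

theorem K_list {G : SimpleGraph V} {l : List V} (hl : IsP G l) (hne : l ≠ []) :
    ∃ (a b : V) (p : G.Walk a b), p.IsPath ∧ p.support = l := by
  refine ⟨_, _, SimpleGraph.Walk.ofSupport l hne hl.1, ?_, ?_⟩
  · rw [SimpleGraph.Walk.isPath_def, SimpleGraph.Walk.support_ofSupport]
    exact hl.2
  · exact SimpleGraph.Walk.support_ofSupport hne hl.1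

end Pool.Agent.PF
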